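import Pool.Agent.W475.BG.Stm
import Pool.Agent.W290.BH.GGU

/-!
BG-GGU: upper bound for the backward heat flow of the gamma factor (any degree).
-/

set_option autoImplicit false

namespace Pool.Agent.W52.BG

open Complex MeasureTheory Filter Topology
open Pool.Agent.W475.BG
open Pool.Agent.W290.BH (growth)

/-- Pointwise bound of the integrand. -/
theorem pointwise (D : Dat) (κ K1 K2 : ℝ) (hκ : 0 < κ) (hK1 : 1 ≤ K1) (hK2 : 1 ≤ K2) (t : ℝ)
    (ht3 : 3 ≤ t) (ht : (2048 * κ * (2 * K2 + K1)) ^ 2 ≤ t)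
    (hlow : Real.exp (-(K1 * t)) ≤ ‖HH D (I * t)‖)
    (hloc : ∀ u : ℂ, ‖u‖ ≤ t / 8 →
      ‖HH D (I * t + u)‖ ≤ ‖HH D (I * t)‖ * Real.exp ((D.d : ℝ) * Real.log t / 2 * u.re + K1 * ‖u‖))
    (hcr : ∀ z : ℂ, 0 ≤ z.re →
      ‖HH D z‖ ≤ Real.exp (K2 * (1 + z.re) * Real.log (2 + z.re)))
    (u : ℂ) (hu : ‖u‖ ≤ t / 16) (hu0 : 0 ≤ u.re) (v : ℝ) :
    Real.exp (-v ^ 2) * ‖HH D (I * t + u + I * ((2 * Real.sqrt κ * v : ℝ) : ℂ))‖ ≤
      ‖HH D (I * t)‖ * Real.exp ((D.d : ℝ) * Real.log t / 2 * u.re + K1 * ‖u‖) *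
        ((Real.exp (2 * K1 ^ 2 * κ) + 1) * Real.exp (-(1 / 4) * v ^ 2)) := by
  set s := Real.sqrt κ with hs
  have hs0 : 0 ≤ s := Real.sqrt_nonneg κ
  have hss : s * s = κ := Real.mul_self_sqrt hκ.le
  set E := Real.exp ((D.d : ℝ) * Real.log t / 2 * u.re + K1 * ‖u‖) with hE
  have hlt : 0 ≤ Real.log t := Real.log_nonneg (by linarith)
  have hE1 : 1 ≤ E := by
    rw [hE]
    apply Real.one_le_exp
    have := norm_nonneg u
    positivity
  have hN : ‖I * ((2 * s * v : ℝ) : ℂ)‖ = 2 * s * |v| := by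
    rw [norm_mul, norm_I, one_mul, norm_real, Real.norm_eq_abs, abs_mul, abs_of_nonneg (by positivity)]
  have hassoc : I * t + u + I * ((2 * s * v : ℝ) : ℂ) = I * t + (u + I * ((2 * s * v : ℝ) : ℂ)) := by
    ring
  have hre : (u + I * ((2 * s * v : ℝ) : ℂ)).re = u.re := by simp
  have hHpos : 0 ≤ ‖HH D (I * t)‖ := norm_nonneg _
  have hCe : 0 ≤ Real.exp (2 * K1 ^ 2 * κ) := (Real.exp_pos _).le
  rcases le_or_gt (2 * s * |v|) (t / 16) with hv | hv
  · have hnorm : ‖u + I * ((2 * s * v : ℝ) : ℂ)‖ ≤ ‖u‖ + 2 * s * |v| := by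
      calc _ ≤ ‖u‖ + ‖I * ((2 * s * v : ℝ) : ℂ)‖ := norm_add_le _ _
        _ = _ := by rw [hN]
    have h1 := hloc (u + I * ((2 * s * v : ℝ) : ℂ)) (by linarith)
    rw [hre] at h1
    have h2 : Real.exp ((D.d : ℝ) * Real.log t / 2 * u.re +
          K1 * ‖u + I * ((2 * s * v : ℝ) : ℂ)‖) ≤
        E * Real.exp (v ^ 2 / 2 + 2 * K1 ^ 2 * κ) := by
      rw [hE, ← Real.exp_add]
      apply Real.exp_le_exp.2
      have h3 : K1 * ‖u + I * ((2 * s * v : ℝ) : ℂ)‖ ≤ K1 * (‖u‖ + 2 * s * |v|) :=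
        mul_le_mul_of_nonneg_left hnorm (by linarith)
      have h4 : K1 * (2 * s * |v|) ≤ v ^ 2 / 2 + 2 * K1 ^ 2 * κ := by
        have := sq_nonneg (|v| - 2 * K1 * s)
        have h5 : |v| ^ 2 = v ^ 2 := sq_abs v
        nlinarith
      linarith
    have h3 : ‖HH D (I * t + (u + I * ((2 * s * v : ℝ) : ℂ)))‖ ≤
        ‖HH D (I * t)‖ * (E * Real.exp (v ^ 2 / 2 + 2 * K1 ^ 2 * κ)) :=
      h1.trans (mul_le_mul_of_nonneg_left h2 hHpos)
    rw [hassoc]
    have h4 : Real.exp (-v ^ 2) * Real.exp (v ^ 2 / 2 + 2 * K1 ^ 2 * κ) ≤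
        Real.exp (2 * K1 ^ 2 * κ) * Real.exp (-(1 / 4) * v ^ 2) := by
      rw [← Real.exp_add, ← Real.exp_add]
      apply Real.exp_le_exp.2
      nlinarith [sq_nonneg v]
    calc Real.exp (-v ^ 2) * ‖HH D (I * t + (u + I * ((2 * s * v : ℝ) : ℂ)))‖
        ≤ Real.exp (-v ^ 2) * (‖HH D (I * t)‖ * (E * Real.exp (v ^ 2 / 2 + 2 * K1 ^ 2 * κ))) :=
          mul_le_mul_of_nonneg_left h3 (Real.exp_pos _).le
      _ = ‖HH D (I * t)‖ * E * (Real.exp (-v ^ 2) * Real.exp (v ^ 2 / 2 + 2 * K1 ^ 2 * κ)) := by ring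
      _ ≤ ‖HH D (I * t)‖ * E * (Real.exp (2 * K1 ^ 2 * κ) * Real.exp (-(1 / 4) * v ^ 2)) :=
          mul_le_mul_of_nonneg_left h4 (by positivity)
      _ ≤ _ := by
          apply mul_le_mul_of_nonneg_left _ (by positivity)
          apply mul_le_mul_of_nonneg_right _ (Real.exp_pos _).le
          linarith
  · have ht0 : 0 < t := by linarith
    have hz0 : (I * t + u + I * ((2 * s * v : ℝ) : ℂ)).re = u.re := by simp
    have h1 := hcr (I * t + u + I * ((2 * s * v : ℝ) : ℂ)) (by rw [hz0]; exact hu0)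
    rw [hz0] at h1
    have hure : u.re ≤ t / 16 := (re_le_norm u).trans hu
    have hgr := growth κ K1 K2 hκ hK1 hK2 t u.re hu0 hure ht3 ht
    have hv2 : t ^ 2 / (2048 * κ) ≤ v ^ 2 / 2 := by
      rw [div_le_iff₀ (by positivity)]
      have a1 : (t / 16) ^ 2 ≤ (2 * s * |v|) ^ 2 := by
        apply pow_le_pow_left₀ (by positivity) hv.le
      have a2 : (2 * s * |v|) ^ 2 = 4 * κ * v ^ 2 := by
        rw [mul_pow, mul_pow, sq_abs, ← hss]; ring
      nlinarith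
    have hexp : Real.exp (-v ^ 2) * Real.exp (K2 * (1 + u.re) * Real.log (2 + u.re)) ≤
        ‖HH D (I * t)‖ * (1 * Real.exp (-(1 / 4) * v ^ 2)) := by
      have a1 : Real.exp (-v ^ 2) * Real.exp (K2 * (1 + u.re) * Real.log (2 + u.re)) ≤
          Real.exp (-(K1 * t)) * (1 * Real.exp (-(1 / 4) * v ^ 2)) := by
        rw [one_mul, ← Real.exp_add, ← Real.exp_add]
        apply Real.exp_le_exp.2
        nlinarith [sq_nonneg v]
      exact a1.trans (mul_le_mul_of_nonneg_right hlow (by positivity))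
    calc Real.exp (-v ^ 2) * ‖HH D (I * t + u + I * ((2 * s * v : ℝ) : ℂ))‖
        ≤ Real.exp (-v ^ 2) * Real.exp (K2 * (1 + u.re) * Real.log (2 + u.re)) :=
          mul_le_mul_of_nonneg_left h1 (Real.exp_pos _).le
      _ ≤ ‖HH D (I * t)‖ * (1 * Real.exp (-(1 / 4) * v ^ 2)) := hexp
      _ ≤ ‖HH D (I * t)‖ * ((Real.exp (2 * K1 ^ 2 * κ) + 1) * Real.exp (-(1 / 4) * v ^ 2)) := by
          apply mul_le_mul_of_nonneg_left _ hHpos
          apply mul_le_mul_of_nonneg_right _ (Real.exp_pos _).le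
          linarith
      _ ≤ _ := by
          apply mul_le_mul_of_nonneg_right _ (by positivity)
          exact le_mul_of_one_le_right hHpos hE1

theorem ggu (D : Dat) (hD : Ok D) (hS : S_STIR D) (hG : S_GGC D) : S_GGU D := by
  obtain ⟨K1, T1, hK1, hT1, hS⟩ := hS
  obtain ⟨K2, hK2, -, hcr⟩ := hG
  intro κ hκ
  set C := Real.exp (2 * K1 ^ 2 * κ) + 1 with hC
  have hC0 : 0 ≤ C := by positivity
  refine ⟨K1 + 2 * C, T1 + 3 + (2048 * κ * (2 * K2 + K1)) ^ 2, by linarith,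
    by nlinarith [sq_nonneg (2048 * κ * (2 * K2 + K1))], ?_⟩
  intro t ht u hu hu0
  have hsqn := sq_nonneg (2048 * κ * (2 * K2 + K1))
  obtain ⟨_, _, hlow, hloc, _⟩ := hS t (by linarith)
  have hz0 : 0 ≤ (I * t + u).re := by simpa using hu0
  have hpw := pointwise D κ K1 K2 hκ hK1 hK2 t (by linarith) (by linarith) hlow
    (fun u hu => (hloc u hu).2.2) hcr u hu hu0
  have hgi : Integrable (fun v : ℝ => Real.exp (-(1 / 4) * v ^ 2)) :=
    integrable_exp_neg_mul_sq (by norm_num)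
  have hgv : ∫ v : ℝ, Real.exp (-(1 / 4) * v ^ 2) = Real.sqrt (Real.pi / (1 / 4)) :=
    integral_gaussian (1 / 4)
  have hsq : Real.sqrt (Real.pi / (1 / 4)) = 2 * Real.sqrt Real.pi := by
    rw [show Real.pi / (1 / 4) = 2 ^ 2 * Real.pi by ring, Real.sqrt_mul (by norm_num),
      Real.sqrt_sq (by norm_num)]
  set A := ‖HH D (I * t)‖ * Real.exp ((D.d : ℝ) * Real.log t / 2 * u.re + K1 * ‖u‖) with hA
  have hA0 : 0 ≤ A := by positivity
  have hI : ‖∫ v : ℝ, ((Real.exp (-v ^ 2) : ℝ) : ℂ) *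
      HH D (I * t + u + I * ((2 * Real.sqrt κ * v : ℝ) : ℂ))‖ ≤
      ∫ v : ℝ, A * (C * Real.exp (-(1 / 4) * v ^ 2)) := by
    apply norm_integral_le_of_norm_le
    · exact (hgi.const_mul C).const_mul A
    · refine Eventually.of_forall fun v => ?_
      rw [norm_mul, norm_real, Real.norm_eq_abs, abs_of_pos (Real.exp_pos _)]
      exact hpw v
  rw [integral_const_mul, integral_const_mul, hgv, hsq] at hI
  have hpi : 0 < Real.sqrt Real.pi := Real.sqrt_pos.2 Real.pi_pos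
  rw [GG, norm_mul, norm_real, Real.norm_eq_abs, abs_of_pos (by positivity)]
  calc 1 / Real.sqrt Real.pi * ‖∫ v : ℝ, ((Real.exp (-v ^ 2) : ℝ) : ℂ) *
      HH D (I * t + u + I * ((2 * Real.sqrt κ * v : ℝ) : ℂ))‖
      ≤ 1 / Real.sqrt Real.pi * (A * (C * (2 * Real.sqrt Real.pi))) :=
        mul_le_mul_of_nonneg_left hI (by positivity)
    _ = A * (2 * C) := by field_simp
    _ ≤ A * Real.exp (2 * C) := by
        apply mul_le_mul_of_nonneg_left _ hA0
        have := Real.add_one_le_exp (2 * C)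
        linarith
    _ = ‖HH D (I * t)‖ * Real.exp ((D.d : ℝ) * Real.log t / 2 * u.re + K1 * ‖u‖ + 2 * C) := by
        rw [hA, mul_assoc, ← Real.exp_add]
    _ ≤ _ := by
        apply mul_le_mul_of_nonneg_left _ (norm_nonneg _)
        apply Real.exp_le_exp.2
        have := norm_nonneg u
        have h9 : 0 ≤ 2 * C * ‖u‖ := by positivity
        linarith

end Pool.Agent.W52.BG
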